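import Pool.Agent.H13.IsoD

namespace Pool.Agent.Results.MP_f363fd_co.Six
open Pool.Agent.H13.Iso

theorem result (V : Type) [Fintype V] (Γ : SimpleGraph V) (n : ℕ) (hn : 2 ≤ n)
    (hV : n < Fintype.card V) (ht : ∀ u v : V, ∃ g : Γ ≃g Γ, g u = v)
    (hno : ¬ ∃ c : V → Fin n, Function.Surjective c ∧ Imprim Γ c) :
    hIso Γ (n + 1) ≤ 6 * hIso Γ n := by
  classical
  by_contra hlt
  obtain ⟨c, hc, -, hi⟩ := graph_main Γ n (by omega) hV ht (not_le.1 hlt)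
  exact hno ⟨c, hc, hi⟩

end Pool.Agent.Results.MP_f363fd_co.Six
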